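import Mathlib
import Pool.Agent.Lib.MP_c95b3b_ag_G.Final
import Pool.Agent.Lib.MP_c95b3b_ag_ZP.Final

set_option autoImplicit false

namespace Pool.Agent.Results.MP_c95b3b_ag.ZilberTori

open Topology Pool.Agent.ZT

universe u

/-- Zilber's conjecture on intersections with tori, over every algebraically closed field `K` of
characteristic zero: let `Y` be an irreducible Zariski closed subset of the torus `(Kˣ)^n`. If the
union of the sets `Y ∩ H`, over the Zariski closed subgroups `H` of `(Kˣ)^n` with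
`dim Y + dim H ≤ n - 1`, is Zariski dense in `Y`, then `Y` is contained in a proper Zariski closed
subgroup of `(Kˣ)^n`. -/
theorem result (K : Type u) [Field K] [IsAlgClosed K] [CharZero K] (n : ℕ)
    (Y : Set (Fin n → Kˣ)) (hclosed : IsClosed[zariski K n] Y)
    (hirr : @IsIrreducible _ (zariski K n) Y)
    (hdense : Y ⊆ closure[zariski K n]
      (⋃ (H : Subgroup (Fin n → Kˣ)) (_ : IsClosed[zariski K n] (H : Set (Fin n → Kˣ)))
        (_ : zdim Y + zdim (H : Set (Fin n → Kˣ)) + 1 ≤ n), Y ∩ H)) :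
    ∃ H : Subgroup (Fin n → Kˣ), IsClosed[zariski K n] (H : Set (Fin n → Kˣ)) ∧ H ≠ ⊤ ∧
      Y ⊆ H :=
  final Pool.Agent.ZP.full Y hclosed hirr hdense

end Pool.Agent.Results.MP_c95b3b_ag.ZilberTori
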